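import Pool.Agent.Helper74.Branched.Final

/-!
# Euclidean space is a universal base for branched covers

For every `m ≥ 2`, every connected orientable open (noncompact, without boundary) PL `m`-manifold is
a branched cover of `ℝ^m` of degree `ℵ₀`.

Idea of the proof. The facets of a triangulation are the vertices of an infinite connected locally
finite graph, so there is a spanning forest in which every facet has a parent and only finitely many
descendants. In every facet there is a piecewise linear flow towards the face it shares with its
parent; the flow lines start on the faces not dual to the forest and go to infinity. The product of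
the barycentric subdivision of these faces with the flow parameter tiles the manifold by copies of a
half-infinite prism, and these tiles are folded alternately onto a convex polyhedron in `ℝ^m` and
onto the closure of its complement.
-/

namespace Pool.Agent.Results.MP_120ab6_gt.UniversalBase

open Pool.Agent.Helper74.Branched

universe u

/-- Let `m ≥ 2` and let `K` be a triangulated PL manifold of dimension `m` (without boundary) which
is connected, noncompact and orientable. Then there is a branched cover `f` of degree `ℵ₀` from the
polyhedron of `K` to `ℝ^m`; moreover `f` is onto and complete. -/
theorem result (m : ℕ) (hm : 2 ≤ m) {V : Type u} (K : PreAbstractSimplicialComplex V)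
    (hK : IsPLManifold m K) (hconn : IsConnected (space K)) (hopen : ¬ IsCompact (space K))
    (hor : ∃ o, IsOrientation m K o) :
    ∃ f : (V → ℝ) → (Fin m → ℝ), IsBranchedCover m K f Cardinal.aleph0.{u} ∧
      (∀ y, ∃ x ∈ space K, f x = y) ∧ IsComplete K f := by
  obtain ⟨n, rfl⟩ : ∃ n, m = n + 1 := ⟨m - 1, by omega⟩
  obtain ⟨o, ho⟩ := hor
  exact exists_branchedCover (by omega) hK hconn hopen ho

end Pool.Agent.Results.MP_120ab6_gt.UniversalBase
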